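import Mathlib
import Pool.Agent.Hx88.SM.Main

/-!
# Semisimplicity for the products of arbitrary varieties with abelian varieties of almost any slope
type of any CM field

Let `K i` (`i` in a finite set) be CM fields of degree `2 g i`. Nothing is assumed about their Galois
groups. They are pairwise independent: for `i ≠ k` and all complex embeddings `φ` of `K i` and `ψ` of
`K k` some automorphism of `ℂ` is the identity on `φ (K i)` and the complex conjugation on `ψ (K k)`
(this is no condition if there is only one field). We fix an isomorphism `ν` of the algebraic closure
of `ℚ_p` with `ℂ`; it defines a `p`-adic valuation of `ℂ`, with the value one at `p`. Let `M i` be a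
function with nonzero integral values, all of which divide `n i`, on the complex embeddings of
`K i`, invariant under complex conjugation. A CM type `Φ i` of `K i` (a choice of one element out of
each complex conjugate pair of embeddings; there are `2 ^ (g i)` types), `M i` and a real number
`κ ≠ 0` prescribe the slopes `(a + κ M) / 2` (at the embeddings in `Φ i`) and `(a - κ M) / 2` (outside
of `Φ i`) of a Weil number for `p ^ a` in `K i` (`CT.HasType`). If `p` splits completely in `K i` then,
by Honda and Tate, all slopes with rational values between `0` and `a` that are symmetric in this way
occur for abelian varieties over finite fields. The case `M = 1`, `κ = a` is the case of ordinary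
abelian varieties; the assumption on `M` says that `a / 2` is not a slope. Slopes are rational, so
integral weights `M` are no restriction.

There are `2 ^ (∑ i, g i)` families of CM types `Φ i` of the fields `K i`. A family is exceptional
(`exceptionalFamilies ν K M`) if the following statement (`Holds`) is false for it. Let `π i` be
Weil numbers for `q = p ^ a` which generate the fields `K i` and have the slope types `Φ i`, `M i`.
Let `A` be an abelian variety over the field with `Q = q ^ s` elements, isogenous to a product of
powers of abelian varieties coming from the field with `q` elements and having the Weil numbers
`π i`, and let `U` be an **arbitrary variety** over the field with `Q` elements, singular or not,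
proper or not, such that

* all eigenvalues `ρ` of Frobenius on the cohomology `H m` with compact supports of `U` are nonzero
  and unrelated to the fields `K i` (`CT.Unrelated`): a function `n` on the
  complex embeddings of `K i` with `n (conj φ) = - n φ` which is invariant under all automorphisms of
  `ℂ` that fix a power of `ρ` is zero. This is so if for each embedding `ψ` of `K i` some automorphism
  which fixes a power of `ρ` is the complex conjugation on `ψ (K i)`: for instance, if a power of `ρ`
  lies in a field linearly disjoint from the normal closures of the `K i`, or in a totally real field.
  It is also so if the degree of `ρ` (which is at most the Betti number) is less than twice the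
  dimension of each nonzero space of functions `n` stable under all automorphisms of `ℂ` (less than
  `2 g i` if this representation is irreducible, as it is for generic CM fields).

Then (`SemisimpleTimes`), for all `i`: if the eigenvalue `Q ^ i` of Frobenius on the cohomology of
degree `2 i` with compact supports of `A × U` is semisimple then this is true for `U`, and **it is
true for `A × U` and `i` if it is true for `U` and all `j ≤ i`**. The homology is dual to the
cohomology with compact supports; so this is: `SS_i (A × U)` implies `SS_i (U)`, and is implied by
`SS_j (U)` for all `j ≤ i`.

This is not formal, although Frobenius is semisimple on the cohomology of `A`: the semisimplicity of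
the eigenvalue `Q ^ i` for `A × U` involves all eigenvalues `ρ` of `U` for which `ρ α` is a power of
`Q` for some product `α` of eigenvalues of `A`.

By the second part of the theorem the conclusion holds for all Weil numbers `π i` without
multiplicative relations between the conjugates, except for the trivial ones (`MaximalAngleRank`),
so that the theorem applies to all families that are not exceptional, and to many others.

The theorem bounds the number of the exceptional families: it is at most
`2 ^ (∑ i, g i) * ∑ i, C * (n i) ^ 2 * rate (K i) (g i) (q i)`, with an absolute constant `C`. Here
`q i` is any prime factor of `g i` (or `q i = 1`), and `rate K g q` is `(1 + log (2 g)) ^ 16` times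
the smaller of the numbers

* `W (K) / √g`, where (third part of the theorem, `WeightEstimate`) `W (K) ≤ N ^ 2 * D ^ (1 / 4)`;
  `N` is the number of the CM subfields of `K` (with `K`) and `D` is the largest degree of a CM
  subfield of `K` that is normal over `ℚ` with a nonabelian Galois group (`D = 1` if there are none);
* `√g / q`.

So the exceptional types are a proportion `O (n ^ 2 * g ^ (-1 / 4) * (log g) ^ 16)` of all types of
all CM fields with a bounded number of CM subfields, and `O (n ^ 2 * g ^ (-1 / 2) * (log g) ^ 16)` if
the normal nonabelian ones have bounded degrees (for instance if `K` has no proper CM subfields and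
is not normal). And they
are a proportion `O (n ^ 2 * g ^ (-δ) * (log g) ^ 16)` of the types of all CM fields `K`, with any
number of subfields, whose degree is divisible by a prime number `q ≥ g ^ (1 / 2 + δ)`; for small `δ`
there are such primes for about `log 2`, that is 69%, of all numbers `g`. Some assumption is
necessary: a multiquadratic CM field of degree `2 g` has `g` imaginary quadratic subfields, and by a
second moment argument almost all of its types are degenerate. The counting part of the theorem
(the bound for the number of the degenerate types) is the one of `AllCMFields` (MP_e12fcd_ag), by
helper1 and others of this team; new here are the application to the Frobenius eigenvalues of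
products with arbitrary varieties, and the proof (`Hx88.SM`) that for Weil numbers of maximal angle
rank the relations with unrelated numbers are the trivial ones. The starting files of this problem
are about almost all abelian varieties of given dimensions over a finite field (in the order of the
size of the field, the eigenvalues of `U` being of small rank over a fixed number field), and about
almost all members of families with large monodromy; here the CM field is arbitrary.

The number `W (K)` (`subfieldWeight K`) is defined as follows. The automorphisms of `ℂ` act on the
rational functions on the set of the complex embeddings of `K` which change their sign under complex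
conjugation. A field of definition (`fieldsOfDefinition K`) of an isotypic component of this
representation is a smallest subfield `F` of `K` such that the values of the functions in the
component depend only on the restrictions of the embeddings to `F`. It is a CM field. Then `W (K)` is
the sum over these fields `F` of the number of the CM subfields of `F`, multiplied by
`[F : ℚ] ^ (1 / 4)` if `F` is normal over `ℚ` and its Galois group is not abelian.

The proof. A multiplicative relation between the conjugates of the `π i` gives, for
each automorphism `σ` of `ℂ`, a linear relation between the signed weights `± M i (σ φ)`, by the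
`p`-adic valuations; for nondegenerate types it is trivial, so the angle rank is maximal.
If a product `α` of conjugates and an eigenvalue `ρ` of `U` have a product which is, up to roots of
unity, a power of `Q` then
we compare the relation with its image under the automorphisms `τ` which fix a power
of `ρ`: the exponents of `φ` minus those of `conj φ` are invariant under `τ`, and so zero. So `α` is a
power `Q ^ j`, up to roots of unity, the conjugates in `α` can be paired, and `ρ` is
a power of `Q`, up to roots of unity. The number of the degenerate types is estimated as in
`AllCMFields`.
-/

set_option autoImplicit false

namespace Pool.Agent.Results.MP_16ef92_ag.AllCMTypesTimesAny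

open NumberField Module IntermediateField Pool.Agent.H204R3.CM Pool.Agent.H977R3.CM
  Pool.Agent.TH170 Pool.Agent.Y1.KN Pool.Agent.Y1.CT Pool.Agent.Y1.TS Pool.Agent.Y137.MV
  Pool.Agent.Hx88.SM

/-- The semisimplicity for `A × U` follows from the one for `U`, for all abelian varieties `A`
isogenous to products of powers of abelian varieties with Weil numbers of
the slope types `Φ i`, `M i`, and all `U` unrelated to the fields `K i`. -/
def Holds {p : ℕ} [Fact p.Prime] (ν : PadicAlgCl p ≃+* ℂ) {I : Type} [Fintype I] (K : I → Type)
    [∀ i, Field (K i)] [∀ i, NumberField (K i)] [∀ i, IsCMField (K i)]
    (M : ∀ i, (K i →+* ℂ) → ℤ) (Φ : ∀ i, Set (K i →+* ℂ)) : Prop :=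
  ForAllWeil ν K M (fun a π => SemisimpleTimes (p ^ a) K π) Φ

/-- The exceptional families of CM types. -/
def exceptionalFamilies {p : ℕ} [Fact p.Prime] (ν : PadicAlgCl p ≃+* ℂ) {I : Type} [Fintype I]
    (K : I → Type) [∀ i, Field (K i)] [∀ i, NumberField (K i)] [∀ i, IsCMField (K i)]
    (M : ∀ i, (K i →+* ℂ) → ℤ) : Set (∀ i, Set (K i →+* ℂ)) :=
  {Φ | (∀ i, IsCMType (Φ i)) ∧ ¬ Holds ν K M Φ}

/-- **The semisimplicity of the Frobenius eigenvalues `Q ^ i` for `A × U` follows from the one for
`U`, for the abelian varieties `A` of almost any slope type of any CM fields and all unrelated
varieties `U`.** -/
theorem result :
    (∃ C : ℝ, 0 ≤ C ∧ ∀ (p : ℕ) [Fact p.Prime] (ν : PadicAlgCl p ≃+* ℂ) (I : Type) [Fintype I]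
      (K : I → Type) [∀ i, Field (K i)] [∀ i, NumberField (K i)] [∀ i, IsCMField (K i)]
      (M : ∀ i, (K i →+* ℂ) → ℤ) (n g q : I → ℕ), PairwiseIndep K →
      (∀ i φ, M i (ComplexEmbedding.conjugate φ) = M i φ) → (∀ i, n i ≠ 0) →
      (∀ i φ, M i φ ∣ (n i : ℤ)) → (∀ i, finrank ℚ (K i) = 2 * g i) →
      (∀ i, q i ∣ g i ∧ (q i = 1 ∨ (q i).Prime)) →
      ((exceptionalFamilies ν K M).ncard : ℝ) ≤
        2 ^ (∑ i, g i) * ∑ i, C * (n i : ℝ) ^ 2 * rate (K i) (g i) (q i)) ∧
    (∀ (p : ℕ) [Fact p.Prime] (a : ℕ) (I : Type) [Fintype I] (K : I → Type) [∀ i, Field (K i)]
      [∀ i, NumberField (K i)] [∀ i, IsCMField (K i)] (π : ∀ i, K i),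
      (∀ i, π i * IsCMField.complexConj (K i) (π i) = (p : K i) ^ a) →
      MaximalAngleRank (p ^ a) π → SemisimpleTimes (p ^ a) K π) ∧
    WeightEstimate := by
  obtain ⟨C, hC0, hC⟩ := ncard_of_angle
  refine ⟨⟨C, hC0, ?_⟩, ?_, weight_estimate_holds⟩
  · intro p _ ν I _ K _ _ _ M n g q hind hM hn hMn hg hq
    exact hC p ν I K M n g q hind hM hn hMn hg hq _ fun a π ha hgen hw hang =>
      semisimpleTimes_of_angle (Fact.out : p.Prime).ne_zero hw hang
  · intro p _ a I _ K _ _ _ π hw hang
    exact semisimpleTimes_of_angle (Fact.out : p.Prime).ne_zero hw hang

end Pool.Agent.Results.MP_16ef92_ag.AllCMTypesTimesAny
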