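import Pool.Agent.Helper17.BG.Jord
import Pool.Agent.Helper17.BG.K3Sys

/-!
# Jordan blocks of the Frobenius on products of arbitrary varieties with K3 surfaces of different heights

Let `κ` be a finite field with `q = p ^ m` elements, and `𝒱` a class of smooth projective varieties over
`κ`, closed under products, with Chow groups `A` with rational coefficients and a Weil cohomology theory
`H` (framework of the starting files: `TheoryData`, `IsChow`, `IsWeil`). Let `X_i`, `1 ≤ i ≤ r`, be K3
surfaces over `κ` of finite heights `h_i`, with `22 - b_i` the geometric Picard number, all divisors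
being defined over `κ` (true after a finite extension of `κ`). More generally (`HasK3Type`) `X_i` is a
variety whose cohomology is generated by the classes of algebraic cycles and a subspace `T` stable under
the Frobenius, where the eigenvalues of the Frobenius are, up to roots of unity and after an extension of
`κ` of degree `e_i`, of the form `q ^ w` times a product of at most `n_i` conjugates of the number `α_i`,
not balanced (some conjugate and its inverse do not occur equally often). Here `α_i` is the Frobenius
number of a K3 surface of height `h_i` (`IsK3Number`: all powers of `α_i` generate the CM field `E_i`,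
the complex absolute values are `1`, the `p`-adic embeddings with `|α_i| > 1` belong to one place, and
there `|α_i| = q ^ (1 / h_i)`; `h_i` and `b_i` are the same multiple of the local degree and of the degree
`2 d_i` of `E_i`). So `X_i` can be a K3 surface or a cubic fourfold (`n_i = 1`), a power of
a K3 surface or a Hilbert scheme of points of a K3 surface, if the Tate conjecture is known for it (for
instance `S × S`, `n_i = 2`, for all K3 surfaces `S` of finite height: Ito, Ito and Koshikawa).

Let `U` be **any** variety over `κ` (open, singular, reducible), `ε = dim U`, and `Z` a variety in `𝒱` (for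
example a point). Let `M = ⨁ M^c` with `M^c = H_{2ε-c}(Ū, ℚ_ℓ(ε)) ⊗ K`, the étale homology, with the
geometric Frobenius `μ` (`Homology`; for `U` smooth of pure dimension `ε` this is the cohomology
`H^c(Ū)`). For `X` in `𝒱` let `R(X) = H(X) ⊗ M`, with the Frobenius `Φ = F_X ⊗ μ`. By the Künneth formula
`H_{2i}(X̄ × Ū, ℚ_ℓ(i)) ⊗ K` is, with `n = dim X + ε - i`, the sum of the `H^a(X) ⊗ M^c` with `a + c = 2 n`
(`degreePart`), and the Frobenius `Frob_q` on it is `q ^ n Φ ^ (-1)` (or `q ^ (-n) Φ`), so that the Jordan
blocks for the eigenvalue `1` are those of `Φ` for `q ^ n`. Let `nullity s X i` be the dimension of the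
kernel of `(Frob - 1) ^ s` on `H_{2i}(X × U, ℚ_ℓ(i))`; so the number of Jordan blocks of size at least
`s` is `nullity s X i - nullity (s - 1) X i`.

Let `χ` be a polynomial with rational coefficients, `χ(0) ≠ 0`, with `χ(μ) = 0` (there are such polynomials,
since the eigenvalues of `μ` are algebraic). Let `Γ` be a set of rational numbers which contains `0`, such
that the products `β ρ` of the eigenvalues `β` of the Frobenius on `H(Z)` and of the roots `ρ` of `χ` are
Weil numbers of some weights `w`, with slopes in `w / 2 + Γ` if `w` is even. Suppose (`Admissible`) that

* integers `a_i`, `|a_i| ≤ n_i`, such that `∑ a_i / h_i` belongs to `Γ` are zero, and that `n_i ≤ 2`, or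
  `n_i = 3` and `(d_i, m_i) ∉ exceptionalPairs`, or `m_i` is odd and `(d_i, m_i) ∉ exceptionalOddPairs`,
  with the local degree `m_i`; or
* (`Γ = {0}`) this only for the `a_i` with index `i` in a set of indices (the `Isolated` ones), and for
  the other indices only that `n_i = 1`, that the `h_i` are different, and that there are not three such
  indices with `(h, b) = (2, 4), (3, 6), (6, 12)` (the bounds `h ≤ 11`, `b ≤ 23` hold for all K3
  surfaces).

**Theorem.** Let `V` be the product of `Z` and of finitely many of the `X_i` (pairwise different), and
`δ = dim V - dim Z`. Let `r_l (X_i)` be the rank of the group of cycles of dimension `l` on `X_i` modulo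
homological equivalence (for a K3 surface: `1`, the Picard number, `1`), and `∑ r_l t ^ l` the product
of the polynomials `∑ r_l (X_i) t ^ l`, `i ∈ L`.
1. **All Jordan blocks for the eigenvalue `1` of `V × U` come from `U`:** for all `s` and `i`
   `nullity s V i = ∑_l r_l nullity s Z (i - l)`. So for every size `s` the number of Jordan blocks of
   size `s` for the eigenvalue `1` on `H_{2i}(V × U, ℚ_ℓ(i))` is the sum of `r_l` times the number of
   the Jordan blocks of size `s` for the eigenvalue `1` on `H_{2(i-l)}(Z × U, ℚ_ℓ(i-l))`.
2. For all `s` and `i`: the Jordan blocks for `V × U` and `i` have size at most `s` if and only if those for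
   `Z × U` and `i - l` have size at most `s` for `0 ≤ l ≤ δ`. The case `s = 1` is the equivalence of
   `SS_i(V × U)` and of the `SS_{i-l}(Z × U)`, `0 ≤ l ≤ δ`.

Nothing is assumed about nilpotence, the Tate conjecture, or semisimplicity; the cohomology of `Z` and
of `U` can have Jordan blocks of any sizes. In particular:
* (`Γ = {0}`) for **all products `V` of K3 surfaces of pairwise different finite heights** (not
  `2, 3, 6` with Picard numbers `18, 16, 10`) and every variety `U` whose even weights are supersingular,
  the Jordan blocks for the eigenvalue `1` of `V × U` are those of `U`, with the multiplicities `r_l`;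
* (`Γ` the integers) for a K3 surface `X` of height `h > 1` and Picard number `ρ` and **every** variety `U`
  with integral slopes in even weights (for instance every open subvariety of an ordinary variety with
  ordinary boundary strata): the number of Jordan blocks of size `s` for the eigenvalue `1` on
  `H_{2i}(X × U, ℚ_ℓ(i))` is the one for `U` and `i`, plus `ρ` times the one for `U` and `i - 1`, plus the
  one for `U` and `i - 2`.

The proof: by the results on slopes of the starting files (helper179) no product of eigenvalues of the
Frobenius on the parts `T` of several `X_i` and of a number `β ρ` is a power of `q`. The kernels of the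
operators `(Φ - q ^ n) ^ s` are stable under correspondences, so they form a theory, for which one has
the Künneth formula with finitely many cycles `D j` on `X_i` (method of helper876). The classes of
these cycles are a basis of the space generated by the classes of cycles.
-/

set_option autoImplicit false

open Polynomial CategoryTheory AlgebraicGeometry NumberField

namespace Pool.Agent.Results.MP_16ef92_ag.DifferentHeights

open Pool.Agent.H914 Pool.Agent.H914.VarClass Pool.Agent.H914.VarClass.Obj Pool.Agent.W492.BB
  Pool.Agent.W484.CK Pool.Agent.N876.GB3 Pool.Agent.Helper17.BG

/-- **Jordan blocks on products of arbitrary varieties with K3 surfaces of different heights.** -/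
theorem result (p m : ℕ) [Fact p.Prime] (κ : Type) [Field κ] [Fintype κ] {r : ℕ}
    (E : Fin r → Type) [∀ i, Field (E i)] [∀ i, NumberField (E i)] [∀ i, IsCMField (E i)]
    (α : ∀ i, E i) (e h b n : Fin r → ℕ) (Γ : Set ℚ) (hD : IsK3Data κ p m α e h b n Γ)
    {𝒱 : VarClass κ} (A : TheoryData.{0, 0, 0} 𝒱 ℚ) [IsChow A] {K : Type} [Field K]
    [IsAlgClosed K] [CharZero K] (H : WeilTheoryData.{0, 0, 0} A K) [IsWeil H]
    (F : ∀ X : 𝒱.Obj, X ⟶ X) (X : Fin r → 𝒱.Obj) (Z : 𝒱.Obj) (χ : ℚ[X])
    (hS : IsK3System p m α e n Γ H F X Z χ) (U : Homology K) (hU : IsFiniteHomology U χ)
    (L : List (Fin r)) (hL : L.Nodup) : JordanConclusions U H F (Fintype.card κ) X Z L :=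
  jordan_main (cr_k3 hD hS) hS.polarized hS.ne_zero hU L hL

end Pool.Agent.Results.MP_16ef92_ag.DifferentHeights
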