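import Pool.Agent.Helper17.BG.Jord
import Pool.Agent.Helper17.BG.CovSys

/-!
# Jordan blocks of the Frobenius on products of arbitrary varieties with cyclic coverings branched along
hyperplanes

Let `κ` be a finite field with `q = c ^ f` elements, and `𝒱` a class of smooth projective varieties over
`κ`, closed under products, with Chow groups `A` with rational coefficients and a Weil cohomology theory
`H` (framework of the starting files: `TheoryData`, `IsChow`, `IsWeil`). Let `X_i` be varieties in
`𝒱`, of any dimensions `n_i`, which are models of cyclic coverings

  `w ^ N_i = ∏ l_{i,k} (x) ^ a_{i,k}`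

of projective spaces, branched along hyperplanes `l_{i,k} = 0` over `κ`, with exponents prime to `N_i`,
where `N_i` divides `q - 1` (`IsModel`, see the definitions: the cohomology is generated by the
classes of cycles and a part `T`, pure of weight `n_i`, without invariants under the covering
group, for which the trace formula holds). Let `N` be a common multiple of the `N_i`, and `λ` an
integer such that `IsSmall N λ` holds: for every nonempty finite set `I` of indices and all `j_i` not
divisible by `N_i` (`i ∈ I`) there is a `u` prime to `N` with
`∑_{i ∈ I} weight X_i (u j_i) + λ / 2 < ∑_{i ∈ I} (n_i / 2 + 1)`; here `weight X j` is the mean over the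
orbit `j, c j, …, c ^ (f - 1) j` of the sum of the fractional parts of `j a_k / N_i`.

Let `U` be **any** variety over `κ` (open, singular, reducible), `e = dim U`, and `Z` a variety in `𝒱` (for
example a point). Let `M = ⨁ M^c` with `M^c = H_{2e-c}(Ū, ℚ_ℓ(e)) ⊗ K`, the étale homology, with the
geometric Frobenius `μ` (`Homology`; for `U` smooth of pure dimension `e` this is the cohomology
`H^c(Ū)`). For `X` in `𝒱` let `R(X) = H(X) ⊗ M`, with the Frobenius `Φ = F_X ⊗ μ`. By the Künneth formula
`H_{2i}(X̄ × Ū, ℚ_ℓ(i)) ⊗ K` is, with `n = dim X + e - i`, the sum of the `H^a(X) ⊗ M^c` with `a + c = 2 n`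
(`degreePart`), and the Frobenius `Frob_q` on it is `q ^ n Φ ^ (-1)` (or `q ^ (-n) Φ`), so that the Jordan
blocks for the eigenvalue `1` are those of `Φ` for `q ^ n`. Let `nullity s X i` be the dimension of the
kernel of `(Frob - 1) ^ s` on `H_{2i}(X × U, ℚ_ℓ(i))`; so the number of Jordan blocks of size at least
`s` is `nullity s X i - nullity (s - 1) X i`.

Let `χ` be a polynomial with rational coefficients, `χ(0) ≠ 0`, with `χ(μ) = 0` (there are such polynomials,
since the eigenvalues of `μ` are algebraic). We assume that the products `b` of the eigenvalues of
Frobenius on `H(Z)` and the complex roots of `χ` are of the form `|b| ^ 2 = q ^ j` (theorem of Deligne) and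
that
* either `λ = 0` and the cyclotomic polynomial of order `N` is irreducible over the field generated by
  the numbers `b` (for given `Z` and `U` this is true for all `N` prime to the discriminant of this field),
* or `Z × U` is of level `≤ λ`: the numbers `q ^ λ b / b̄` are algebraic integers. This is true if
  `dim Z + dim U ≤ λ`.

**Theorem.** Let `V` be the product of `Z` and of finitely many of the `X_i` (pairwise different), and
`δ = dim V - dim Z`. Let `r_l (X_i)` be the rank of the group of cycles of dimension `l` on `X_i` modulo
homological equivalence (the dimension of the space generated by their classes), and `∑ r_l t ^ l` the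
product of the polynomials `∑ r_l (X_i) t ^ l`, `i ∈ L`.
1. **All Jordan blocks for the eigenvalue `1` of `V × U` come from `U`:** for all `s` and `i`
   `nullity s V i = ∑_l r_l nullity s Z (i - l)`. So for every size `s` the number of Jordan blocks of
   size `s` for the eigenvalue `1` on `H_{2i}(V × U, ℚ_ℓ(i))` is the sum of `r_l` times the number of
   the Jordan blocks of size `s` for the eigenvalue `1` on `H_{2(i-l)}(Z × U, ℚ_ℓ(i-l))`.
2. For all `s` and `i`: the Jordan blocks for `V × U` and `i` have size at most `s` if and only if those for
   `Z × U` and `i - l` have size at most `s` for `0 ≤ l ≤ δ`. The case `s = 1` is the equivalence of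
   `SS_i(V × U)` and of the `SS_{i-l}(Z × U)`, `0 ≤ l ≤ δ`.

Nothing is assumed about nilpotence, the Tate conjecture, or semisimplicity; the cohomology of `Z` and
of `U` can have Jordan blocks of any sizes. The case `s = 1` of part 2 is contained in the starting file
`MP_3af9db_ag.HyperplaneCoverings`. Part 1 is new also for `s = 1`: it says that the Tate classes of
`V × U` are the products of classes of cycles and of Tate classes of `Z × U`, in all degrees.

Examples. (a) Let `X_i` be curves `y ^ N_i = ∏ (x - x_{i,k})` with `N_i` factors, of genus
`(N_i - 1) (N_i - 2) / 2`, for different prime numbers `N_i` dividing `c - 1`. Then `weight X_i j` is the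
residue of `j` modulo `N_i`, and `IsSmall N 0` holds for the product `N` of the `N_i` (take `u` with
`u j_i = 1` modulo `N_i`). (b) Let `X` be the variety `w ^ N = l_1 ⋯ l_N` of dimension `n = N - 2`, with
`N` hyperplanes in general position, for a prime number `N` dividing `c - 1` (the resolutions are
Calabi-Yau varieties). The weight for `u j = 1` is `1`, so `IsSmall N λ` holds for all `λ < n`: the
theorem applies to **all varieties `U` of dimension smaller than `dim X`**.

The proof: by the theorem of Stickelberger on Gauss sums and the product formula no product of
eigenvalues of the Frobenius on the parts `T` of several `X_i` and of a number `b` is a power of `q`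
(starting files, helper876). The kernels of the operators `(Φ - q ^ n) ^ s` are stable under
correspondences, so they form a theory, for which one has the Künneth formula with finitely many cycles
`D j` on `X_i`. The classes of these cycles are a basis of the space generated by the classes of cycles.
-/

set_option autoImplicit false

open Polynomial CategoryTheory AlgebraicGeometry

namespace Pool.Agent.Results.MP_16ef92_ag.HyperplaneCoverings

open Pool.Agent.H914 Pool.Agent.H914.VarClass Pool.Agent.H914.VarClass.Obj Pool.Agent.W492.BB
  Pool.Agent.W484.CK Pool.Agent.N876.GB3 Pool.Agent.Helper17.BG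

/-- **Jordan blocks on products of arbitrary varieties with cyclic coverings branched along
hyperplanes.** -/
theorem result (c : ℕ) [Fact c.Prime] (κ : Type) [Field κ] [Fintype κ] [CharP κ c] {ι : Type}
    (C : ι → Covering κ) (f N lam : ℕ) (hC : IsSmallSystem C c f N lam)
    {𝒱 : VarClass κ} (A : TheoryData.{0, 0, 0} 𝒱 ℚ) [IsChow A] {K : Type} [Field K]
    [IsAlgClosed K] [CharZero K] (H : WeilTheoryData.{0, 0, 0} A K) [IsWeil H] (τ : K →+* ℂ)
    (F : ∀ X : 𝒱.Obj, X ⟶ X) (X : ι → 𝒱.Obj) (Z : 𝒱.Obj) (χ : ℚ[X])
    (h : IsCoveringSystem C N lam H τ F X Z χ) (U : Homology K) (hU : IsFiniteHomology U χ)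
    (L : List ι) (hL : L.Nodup) : JordanConclusions U H F (Fintype.card κ) X Z L := by
  obtain ⟨S, hS⟩ := cr_cov c κ C f N lam hC A H τ F X Z χ h
  exact jordan_main hS h.polarized h.ne_zero hU L hL

end Pool.Agent.Results.MP_16ef92_ag.HyperplaneCoverings
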